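import Pool.Agent.Helper93.HZ.Spec1

/-!
# HZ: module BST, the set-up exists
-/

set_option autoImplicit false

open MulAction Pointwise

namespace Pool.Agent.Helper93.HZ

/-- Britton's lemma for words of length two. -/
theorem bst_britton {G : Type} [Group G] {A B : Subgroup G} (φ : A ≃* B) (g : G)
    (h : (HNNExtension.t : HNNExtension G A B φ)⁻¹ * HNNExtension.of g * HNNExtension.t ∈
      (HNNExtension.of (A := A) (B := B) (φ := φ)).range) : g ∈ B := by
  by_contra hg
  let w : HNNExtension.NormalWord.ReducedWord G A B :=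
    { head := 1
      toList := [(-1, g), (1, 1)]
      chain := by
        simp only [List.isChain_cons_cons, List.isChain_singleton, and_true]
        intro h1
        exact absurd h1 hg }
  have hw : w.prod φ = HNNExtension.t⁻¹ * HNNExtension.of g * HNNExtension.t := by
    simp [HNNExtension.NormalWord.ReducedWord.prod, w, mul_assoc]
  have := HNNExtension.ReducedWord.toList_eq_nil_of_mem_of_range φ w (by rw [hw]; exact h)
  simp [w] at this

theorem bst_smul_eq {E : Type} [Group E] (R : Subgroup E) (x y z : E) :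
    (x • ((y : E) : E ⧸ R) = ((z : E) : E ⧸ R)) ↔ z⁻¹ * (x * y) ∈ R := by
  constructor
  · intro h
    have h1 : ((z : E) : E ⧸ R) = ((x * y : E) : E ⧸ R) := h.symm
    exact QuotientGroup.eq.1 h1
  · intro h
    have h1 : ((z : E) : E ⧸ R) = ((x * y : E) : E ⧸ R) := QuotientGroup.eq.2 h
    exact h1.symm

/-- commutation on a generator gives commutation on the cyclic group -/
theorem bst_comm {G H : Type} [Group G] [Group H] (a b : G)
    (φ : Subgroup.zpowers a ≃* Subgroup.zpowers b)
    (hφ : ((φ ⟨a, Subgroup.mem_zpowers a⟩ : Subgroup.zpowers b) : G) = b)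
    (ψ : G →* H) (τ : H) (hτ : τ * ψ a * τ⁻¹ = ψ b) (x : Subgroup.zpowers a) :
    τ * ψ (x : G) = ψ (φ x : G) * τ := by
  obtain ⟨x, n, rfl⟩ := x
  have h1 : (⟨a ^ n, n, rfl⟩ : Subgroup.zpowers a) = ⟨a, Subgroup.mem_zpowers a⟩ ^ n := rfl
  have h2 : ((φ ⟨a ^ n, n, rfl⟩ : Subgroup.zpowers b) : G) = b ^ n := by
    rw [h1, map_zpow]
    show ((φ ⟨a, Subgroup.mem_zpowers a⟩ : Subgroup.zpowers b) : G) ^ n = b ^ n
    rw [hφ]
  rw [h2]
  show τ * ψ (a ^ n) = ψ (b ^ n) * τ
  rw [map_zpow, map_zpow, ← hτ, conj_zpow]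
  group

theorem st_BST (h : ST_BT) : ST_BST := by
  intro G _ a b ha hb hE φ hφ he
  obtain ⟨e⟩ := he
  obtain ⟨hT, has⟩ := h G (Subgroup.zpowers a) (Subgroup.zpowers b) φ
  have htof := HNNExtension.t_mul_of (φ := φ) ⟨a, Subgroup.mem_zpowers a⟩
  rw [hφ] at htof
  let R : Subgroup (HNNExtension G (Subgroup.zpowers a) (Subgroup.zpowers b) φ) :=
    (HNNExtension.of (A := Subgroup.zpowers a) (B := Subgroup.zpowers b) (φ := φ)).range
  let E : Type := HNNExtension G (Subgroup.zpowers a) (Subgroup.zpowers b) φ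
  let t : HNNExtension G (Subgroup.zpowers a) (Subgroup.zpowers b) φ := HNNExtension.t
  let act : MulAction G (HNNExtension G (Subgroup.zpowers a) (Subgroup.zpowers b) φ ⧸ R) :=
    MulAction.compHom _ e.symm.toMonoidHom
  have hact : ∀ (g : G) (u : HNNExtension G (Subgroup.zpowers a) (Subgroup.zpowers b) φ ⧸ R),
      g • u = e.symm g • u := fun _ _ => rfl
  have hs0 : ∀ g : G, (g • (((1 : HNNExtension G (Subgroup.zpowers a) (Subgroup.zpowers b) φ) :
      HNNExtension G (Subgroup.zpowers a) (Subgroup.zpowers b) φ ⧸ R)) =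
      ((1 : HNNExtension G (Subgroup.zpowers a) (Subgroup.zpowers b) φ) :
        HNNExtension G (Subgroup.zpowers a) (Subgroup.zpowers b) φ ⧸ R)) ↔ e.symm g ∈ R := by
    intro g
    rw [hact, bst_smul_eq, inv_one, one_mul, mul_one]
  have ht0 : (e t) • ((1 : HNNExtension G (Subgroup.zpowers a) (Subgroup.zpowers b) φ) :
      HNNExtension G (Subgroup.zpowers a) (Subgroup.zpowers b) φ ⧸ R) =
      ((t : HNNExtension G (Subgroup.zpowers a) (Subgroup.zpowers b) φ) :
        HNNExtension G (Subgroup.zpowers a) (Subgroup.zpowers b) φ ⧸ R) := by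
    rw [hact, MulEquiv.symm_apply_apply, bst_smul_eq, mul_one, inv_mul_cancel]
    exact one_mem R
  have hs1 : ∀ g : G, (g • ((t : HNNExtension G (Subgroup.zpowers a) (Subgroup.zpowers b) φ) :
        HNNExtension G (Subgroup.zpowers a) (Subgroup.zpowers b) φ ⧸ R) =
        ((t : HNNExtension G (Subgroup.zpowers a) (Subgroup.zpowers b) φ) :
        HNNExtension G (Subgroup.zpowers a) (Subgroup.zpowers b) φ ⧸ R)) ↔
        t⁻¹ * (e.symm g * t) ∈ R := by
    intro g
    rw [hact, bst_smul_eq]
  refine ⟨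
    { θ := e.toMonoidHom.comp HNNExtension.of
      θinj := e.injective.comp (HNNExtension.of_injective φ)
      t := e t
      a := a
      b := b
      ainf := ha
      binf := hb
      rel := ?_
      gen := ?_
      univ := ?_
      oneEnd := hE
      U := HNNExtension G (Subgroup.zpowers a) (Subgroup.zpowers b) φ ⧸ R
      actU := act
      T := SimpleGraph.fromRel (cosetArr R t)
      tree := hT
      arr := cosetArr R t
      adj_iff := ?_
      arr_asymm := has
      arr_smul := ?_
      u0 := ((1 : HNNExtension G (Subgroup.zpowers a) (Subgroup.zpowers b) φ) :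
        HNNExtension G (Subgroup.zpowers a) (Subgroup.zpowers b) φ ⧸ R)
      vtrans := ?_
      etrans := ?_
      arr0 := ?_
      stab0 := ?_
      stabe := ?_ }⟩
  · show e t * e (HNNExtension.of a) * (e t)⁻¹ = e (HNNExtension.of b)
    rw [← map_inv, ← map_mul, ← map_mul]
    congr 1
    rw [show t * HNNExtension.of a = HNNExtension.of b * t from htof, mul_inv_cancel_right]
  · rw [eq_top_iff]
    intro g _
    have key : ∀ x : HNNExtension G (Subgroup.zpowers a) (Subgroup.zpowers b) φ,
        e x ∈ Subgroup.closure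
          ((((e.toMonoidHom.comp HNNExtension.of : G →* G).range : Subgroup G) : Set G) ∪
            {e t}) := by
      intro x
      induction x using HNNExtension.induction_on with
      | of g => exact Subgroup.subset_closure (Or.inl ⟨g, rfl⟩)
      | t => exact Subgroup.subset_closure (Or.inr rfl)
      | mul x y hx hy => rw [map_mul]; exact mul_mem hx hy
      | inv x hx => rw [map_inv]; exact inv_mem hx
    have := key (e.symm g)
    rwa [MulEquiv.apply_symm_apply] at this
  · intro H _ ψ τ hτ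
    refine ⟨(HNNExtension.lift ψ τ (bst_comm a b φ hφ ψ τ hτ)).comp e.symm.toMonoidHom, ?_, ?_⟩
    · intro g
      show HNNExtension.lift ψ τ (bst_comm a b φ hφ ψ τ hτ) (e.symm (e (HNNExtension.of g))) = ψ g
      rw [MulEquiv.symm_apply_apply, HNNExtension.lift_of]
    · show HNNExtension.lift ψ τ (bst_comm a b φ hφ ψ τ hτ) (e.symm (e HNNExtension.t)) = τ
      rw [MulEquiv.symm_apply_apply, HNNExtension.lift_t]
  · intro u w
    rw [SimpleGraph.fromRel_adj]
    constructor
    · exact fun h => h.2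
    · intro h
      refine ⟨?_, h⟩
      rintro rfl
      rcases h with h | h
      · exact has _ _ h h
      · exact has _ _ h h
  · rintro g _ _ ⟨x, rfl, rfl⟩
    refine ⟨e.symm g * x, rfl, ?_⟩
    show ((e.symm g * (x * t) : HNNExtension G (Subgroup.zpowers a) (Subgroup.zpowers b) φ) :
      HNNExtension G (Subgroup.zpowers a) (Subgroup.zpowers b) φ ⧸ R) = _
    rw [mul_assoc]
  · intro u
    obtain ⟨x, rfl⟩ := QuotientGroup.mk_surjective u
    refine ⟨e x, ?_⟩
    rw [hact, MulEquiv.symm_apply_apply, bst_smul_eq, mul_one, inv_mul_cancel]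
    exact one_mem R
  · rintro _ _ ⟨x, rfl, rfl⟩
    refine ⟨e x, ?_, ?_⟩
    · rw [hact, MulEquiv.symm_apply_apply, bst_smul_eq, mul_one, inv_mul_cancel]
      exact one_mem R
    · rw [ht0, hact, MulEquiv.symm_apply_apply, bst_smul_eq, inv_mul_cancel]
      exact one_mem R
  · rw [ht0]
    exact ⟨1, rfl, by rw [one_mul]⟩
  · ext g
    rw [mem_stabilizer_iff, hs0]
    constructor
    · rintro ⟨x, hx⟩
      exact ⟨x, by
        show e (HNNExtension.of x) = g
        rw [hx, MulEquiv.apply_symm_apply]⟩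
    · rintro ⟨x, hx⟩
      exact ⟨x, by
        rw [← hx]
        show _ = e.symm (e (HNNExtension.of x))
        rw [MulEquiv.symm_apply_apply]⟩
  · ext g
    rw [Subgroup.mem_inf, mem_stabilizer_iff, mem_stabilizer_iff, ht0, hs0, hs1]
    constructor
    · rintro ⟨⟨x, hx⟩, h2⟩
      rw [← hx, ← mul_assoc] at h2
      obtain ⟨n, hn⟩ := bst_britton φ x h2
      refine ⟨n, ?_⟩
      show (e (HNNExtension.of b)) ^ n = g
      rw [← map_zpow, ← map_zpow, show b ^ n = x from hn, hx, MulEquiv.apply_symm_apply]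
    · rintro ⟨n, hn⟩
      have h1 : e.symm g = HNNExtension.of (b ^ n) := by
        rw [← hn]
        show e.symm ((e (HNNExtension.of b)) ^ n) = _
        rw [← map_zpow, MulEquiv.symm_apply_apply, map_zpow]
      rw [h1]
      refine ⟨⟨_, rfl⟩, ?_⟩
      have h3 := HNNExtension.equiv_symm_eq_conj (φ := φ) ⟨b ^ n, n, rfl⟩
      refine ⟨_, h3.trans ?_⟩
      rw [mul_assoc]

end Pool.Agent.Helper93.HZ
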